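import Pool.Agent.TH762.PT.EngC

/-!
# Candidate lists in the polynomial hierarchy for the largest element of a tree of digits
-/

set_option autoImplicit false

namespace Pool.Agent.TH762.QP

open Pool.Agent.NPC Pool.Agent.H579R2.Spt Pool.Agent.H251R5.PQ Pool.Agent.W901.AT
open Pool.Agent.TH684.EX Pool.Agent.W901.NU Pool.Agent.W901.PX Pool.Agent.TH762.XC
open Pool.Agent.TH762.PT
open Pool.Agent.W901.FH (pow_upolyc)
open Pool.Agent.W903.GP (SigmaP InPH sigma_mono)

theorem CFn.ph {k : ℕ} {α β : Type} [TEnc α] [TEnc β] {f : α → β} (h : CFn (SigmaP k) f) :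
    CFn InPH f := by
  obtain ⟨h1, L, hL, h2⟩ := h
  exact ⟨h1, L, ⟨k, hL⟩, h2⟩

/-- **The engine with candidate lists, in the polynomial hierarchy.** -/
theorem engineF {α : Type} [TEnc α] [TDec α] {A : Set (List Bool)}
    (hA : FeasibleIn InPH (Exclude Lthr A))
    {D n : α → ℕ} (hD : UPoly D) (hn : UPoly n) {qz : α × List ℕ → List Bool} (hq : Poly qz) :
    ∃ G : α → List (List ℕ), CFn InPH G ∧
      ∀ (a : α) (good : List ℕ → Prop), Tree (D a) (n a) good → good [] →
        (∀ u : List ℕ, u.length ≤ n a → (∀ d ∈ u, d ≤ D a) → (qz (a, u) ∈ A ↔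
          ¬ ∃ σ : List ℕ, σ.length = u.length ∧ (∀ d ∈ σ, d ≤ D a) ∧ good σ ∧
            num (D a) u ≤ num (D a) σ)) →
        ∃ t ∈ G a, t.length = n a ∧ (∀ d ∈ t, d ≤ D a) ∧ good t ∧
          ∀ σ : List ℕ, σ.length = n a → (∀ d ∈ σ, d ≤ D a) → good σ →
            num (D a) σ ≤ num (D a) t := by
  classical
  obtain ⟨X, b, hX0, hex⟩ := hA
  obtain ⟨k, hX⟩ : ∃ k, ComputableIn (SigmaP (k + 1)) X := by
    obtain ⟨h1, k, h2⟩ := hX0
    exact ⟨k, h1, sigma_mono (Nat.le_succ k) h2⟩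
  have hXc := cfnS_of_computableIn hX
  obtain ⟨p1, hp1⟩ := hq.sz_le
  have hszU : UPoly (fun a : α => sz a) := UPoly.length (bits_poly (α := α))
  set N : α → ℕ := fun a => p1.eval (sz a + (n a * (4 * D a + 2) + 1) + 1) with hN
  have hNU : UPoly N := ((hszU.add ((hn.mul (((UPoly.const 4).mul hD).add (UPoly.const 2))).add
    (UPoly.const 1))).add (UPoly.const 1)).eval p1
  set M : α → ℕ := fun a => (N a) ^ b + b with hM
  have hMU : UPoly M := (pow_upolyc hNU b).add (UPoly.const b)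
  set F : (α × (ℕ × ℕ)) → List (List ℕ) → ℕ := fun z V =>
    X (bits (V.map (fun u => qz (z.1, u)), z.2.2)) with hF
  have e1 : Poly (fun z : α × (ℕ × ℕ) => z.1) := NPC.Poly.fst NPC.Poly.id
  have hFc : CFn (SigmaP (k + 1)) (fun p : (α × (ℕ × ℕ)) × List (List ℕ) => F p.1 p.2) := by
    refine fCompPoly hXc (f := fun p : (α × (ℕ × ℕ)) × List (List ℕ) =>
      bits (p.2.map (fun u => qz (p.1.1, u)), p.1.2.2)) (bits_poly.comp (NPC.Poly.pair ?_ ?_))
    · refine NPC.Poly.map (l := fun p : (α × (ℕ × ℕ)) × List (List ℕ) => p.2)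
        (F := fun p u => qz (p.1.1, u)) (NPC.Poly.snd NPC.Poly.id) ?_
      exact hq.comp (NPC.Poly.pair (NPC.Poly.fst (NPC.Poly.fst (NPC.Poly.fst NPC.Poly.id)))
        (NPC.Poly.snd NPC.Poly.id))
    · exact NPC.Poly.snd (NPC.Poly.snd (NPC.Poly.fst NPC.Poly.id))
  have hcc : CFn (SigmaP (k + 1)) (fun z : α × (ℕ × ℕ) =>
      cds (F z) (min z.2.1 (M z.1)) (D z.1) (n z.1)) := by
    refine cds_cfn hFc ?_ (hD.comp e1) (hn.comp e1)
    exact UPoly.of_le (NPC.Poly.min (NPC.Poly.fst (NPC.Poly.snd NPC.Poly.id))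
      (hMU.comp e1).toPoly) (hMU.comp e1) fun p => min_le_right _ _
  have hpr : Poly (fun a : α => (List.range (M a + 1)).flatMap fun m =>
      (List.range (M a + 1)).map fun c => (m, c)) := by
    refine NPC.Poly.flatMap (l := fun a => List.range (M a + 1)) (F := fun a m =>
      (List.range (M a + 1)).map fun c => (m, c)) (hMU.add (UPoly.const 1)).range ?_
    refine NPC.Poly.map (l := fun p : α × ℕ => List.range (M p.1 + 1))
      (F := fun p c => (p.2, c))
      (((hMU.add (UPoly.const 1)).range).comp (NPC.Poly.fst NPC.Poly.id)) ?_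
    exact NPC.Poly.pair (NPC.Poly.snd (NPC.Poly.fst NPC.Poly.id)) (NPC.Poly.snd NPC.Poly.id)
  have h2 : CFn InPH (fun a : α => ((List.range (M a + 1)).flatMap fun m =>
      (List.range (M a + 1)).map fun c => (m, c)).map
        (fun b => cds (F (a, b)) (min b.1 (M a)) (D a) (n a))) :=
    CFn.map cl_ph (l := fun a : α => (List.range (M a + 1)).flatMap fun m =>
      (List.range (M a + 1)).map fun c => (m, c))
      (F := fun z : α × (ℕ × ℕ) => cds (F z) (min z.2.1 (M z.1)) (D z.1) (n z.1)) hpr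
      (CFn.ph hcc)
  have hfl : Poly (fun l : List (List (List ℕ)) => l.flatten) :=
    (NPC.Poly.flatMap (l := fun l : List (List (List ℕ)) => l) (F := fun _ w => w)
      NPC.Poly.id (NPC.Poly.snd NPC.Poly.id)).congr fun l => by
        simp
  refine ⟨_, (CFn.poly cl_ph hfl).comp cl_ph h2, fun a good hT h0 hqz => ?_⟩
  obtain ⟨m, c, hm, hc, h1⟩ := hex (N a)
  change m ≤ M a at hm
  change c ≤ M a at hc
  have hlen : ∀ u : List ℕ, u.length ≤ n a → (∀ d ∈ u, d ≤ D a) →
      (qz (a, u)).length ≤ N a := by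
    intro u hu hd
    have h2 := hp1 (a, u)
    have h3 := length_lt_sz (qz (a, u))
    have h4 := sz_digits u hd
    have h5 : u.length * (4 * D a + 2) ≤ n a * (4 * D a + 2) := Nat.mul_le_mul_right _ hu
    have h6 : sz (a, u) ≤ sz a + (n a * (4 * D a + 2) + 1) + 1 := by
      rw [sz_pair]
      omega
    exact h3.le.trans (h2.trans (eval_mono p1 h6))
  obtain ⟨t, ht1, ht2, ht3, ht4⟩ := hT.exists_max h0 (le_refl (n a))
  have h2 := cds_correct (X := X) (c := c) (fun qs hqs hl => (h1 qs hqs hl).2) hlen hT h0 hqz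
    (n a) le_rfl t ht1 ht2 ht3 ht4
  refine ⟨t, ?_, ht1, ht2, ht3, ht4⟩
  refine List.mem_flatten.2 ⟨cds (F (a, (m, c))) m (D a) (n a), ?_, h2⟩
  refine List.mem_map.2 ⟨(m, c), ?_, by simp only [min_eq_left hm]⟩
  refine List.mem_flatMap.2 ⟨m, List.mem_range.2 (by omega), ?_⟩
  exact List.mem_map.2 ⟨c, List.mem_range.2 (by omega), rfl⟩

end Pool.Agent.TH762.QP
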