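import Pool.Agent.TH762.QP.Val
import Pool.Agent.TH762.PT.Thm

/-!
# Exclusion of a sorted vector in the polynomial hierarchy, and `PP`
-/

set_option autoImplicit false

namespace Pool.Agent.TH762.QP

open Pool.Agent.NPC Pool.Agent.H579R2.Spt Pool.Agent.H251R5.PQ Pool.Agent.W901.AT
open Pool.Agent.TH684.EX Pool.Agent.W901.PX Pool.Agent.TH762.XC
open Pool.Agent.W901.NU hiding num
open Pool.Agent.TH762.PT Pool.Agent.NPC.Cnt
open Pool.Agent.W903.GP (SigmaP InPH sigma_mono)

/-- the formula in a question -/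
def qf (x : List Bool) : CNF ℕ := ((unbits (CNF ℕ × ℕ) x).getD ([], 0)).1

theorem qf_poly : Poly qf :=
  NPC.Poly.fst (NPC.Poly.optGetD (g := fun _ => ([], 0)) poly_unbits (NPC.Poly.const _))

/-- the answer for a question and a number of satisfying assignments -/
def ansOf (z : List Bool × ℕ) : Bool :=
  (unbits (CNF ℕ × ℕ) z.1).elim false (fun q => decide (1 ≤ q.2) && decide (q.2 ≤ z.2))

theorem ansOf_poly : Poly ansOf := by
  refine NPC.Poly.optElim (o := fun z : List Bool × ℕ => unbits (CNF ℕ × ℕ) z.1)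
    (g := fun _ => false) (h := fun z q => decide (1 ≤ q.2) && decide (q.2 ≤ z.2))
    (poly_unbits.comp (NPC.Poly.fst NPC.Poly.id)) (NPC.Poly.const false) ?_
  exact NPC.Poly.and (NPC.Poly.decide_le (NPC.Poly.const 1) (NPC.Poly.snd (NPC.Poly.snd
    NPC.Poly.id))) (NPC.Poly.decide_le (NPC.Poly.snd (NPC.Poly.snd NPC.Poly.id))
    (NPC.Poly.snd (NPC.Poly.fst NPC.Poly.id)))

theorem ansOf_iff (x : List Bool) :
    ansOf (x, satCount (qf x)) = true ↔ x ∈ lang (thr (fun φ : CNF ℕ => satCount φ)) := by
  rw [mem_lang_iff]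
  unfold ansOf qf
  cases h : unbits (CNF ℕ × ℕ) x with
  | none => simp
  | some q =>
    simp only [Option.elim_some, Option.getD_some, Bool.and_eq_true, decide_eq_true_eq,
      Option.some.injEq, exists_eq_left']
    rfl

theorem countP_qf : CountP (fun x : List Bool => satCount (qf x)) := countP_satCount.comp qf_poly

open Classical in
/-- **Advice.** -/
theorem hasAdv_of_sorted {A : Set (List Bool)} (hA : PPHard A)
    (h : FeasibleIn InPH (Exclude Lthr A)) :
    HasAdv InPH (lang (thr (fun φ : CNF ℕ => satCount φ))) := by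
  obtain ⟨E, hE, hE2⟩ := enum_values countP_qf hA h
  set B : Set (List Bool) := lang (thr (fun φ : CNF ℕ => satCount φ)) with hB
  have h2 : Poly (fun p : List (List Bool) × List (List ℕ) => p.2.map fun w =>
      (p.1.zip w).map fun z => some (ansOf z)) := by
    refine NPC.Poly.map (l := fun p : List (List Bool) × List (List ℕ) => p.2)
      (F := fun p w => (p.1.zip w).map fun z => some (ansOf z)) (NPC.Poly.snd NPC.Poly.id) ?_
    refine NPC.Poly.map (l := fun q : (List (List Bool) × List (List ℕ)) × List ℕ =>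
      q.1.1.zip q.2) (F := fun _ z => some (ansOf z)) ?_ ?_
    · exact NPC.Poly.zip (NPC.Poly.fst (NPC.Poly.fst NPC.Poly.id)) (NPC.Poly.snd NPC.Poly.id)
    · exact NPC.Poly.some (ansOf_poly.comp (NPC.Poly.snd NPC.Poly.id))
  have hE' : CFn InPH (fun qs => (E qs).map fun w =>
      (qs.zip w).map fun z => some (ansOf z)) := by
    have h1 : CFn InPH (fun qs : List (List Bool) => (qs, E qs)) :=
      (CFn.poly cl_ph NPC.Poly.id).pair cl_ph hE
    have h3 := (CFn.poly cl_ph h2).comp cl_ph h1
    exact h3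
  obtain ⟨⟨pE, hpE⟩, _⟩ := id hE'
  have h4 : ∀ qs : List (List Bool), (qs.zip (qs.map fun x => satCount (qf x))).map
      (fun z => some (ansOf z)) = (answers B qs).map some := by
    intro qs
    unfold answers
    induction qs with
    | nil => rfl
    | cons x qs ih =>
      simp only [List.map_cons, List.zip_cons_cons]
      rw [ih]
      congr 2
      rw [Bool.eq_iff_iff, ansOf_iff, decide_eq_true_eq]
  refine ⟨_, hE', fun κ _ F hF => adv_of_szEnum (A := B) (D := 1) (c := 0) le_rfl hpE
    (fun qs hqs _ => ⟨(answers B qs).map some, List.mem_map.2 ⟨_, hE2 qs, h4 qs⟩, ?_⟩) hF⟩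
  exact good_of_beats (δ := 1 / 2) (by norm_num) B qs hqs _ (full_beats le_rfl B qs hqs)

/-- **The law for `PP` in the polynomial hierarchy.** -/
theorem pp_ph_law : List.TFAE
    [∀ L : Set (List Bool), InPPclass L → InPH L,
      ∀ A : Set (List Bool), InPPclass A → FeasibleIn InPH (ExcludeCount A),
      ∃ A : Set (List Bool), PPHard A ∧ FeasibleIn InPH (ExcludeSorted A)] := by
  tfae_have 1 → 2 := fun h A hA => feasibleIn_count cl_ph (h A hA)
  tfae_have 2 → 3 := fun h =>
    ⟨_, thrSat_hard, (h _ (thr_inPP countP_satCount)).mono sorted_of_count⟩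
  tfae_have 3 → 1 := by
    rintro ⟨A, hA, h⟩
    exact pp_sub_of_hasAdv cl_ph _ thrSat_hard (hasAdv_of_sorted hA (h.mono exclude_of_sorted))
  tfae_finish

end Pool.Agent.TH762.QP
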