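import Pool.Agent.TH762.QP.EngF
import Pool.Agent.TH762.XC.Laws
import Pool.Agent.TH762.RX.CP
import Pool.Agent.W901.NU.PPc
import Pool.Agent.W901.NU.ShB

/-!
# Values of `#P` functions from exclusion of one sorted vector
-/

set_option autoImplicit false

namespace Pool.Agent.TH762.QP

open Pool.Agent.NPC Pool.Agent.H579R2.Spt Pool.Agent.H251R5.PQ Pool.Agent.W901.AT
open Pool.Agent.TH684.EX Pool.Agent.W901.PX Pool.Agent.TH762.XC
open Pool.Agent.W901.NU hiding num
open Pool.Agent.TH762.PT Pool.Agent.NPC.Cnt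
open Pool.Agent.W903.GP (SigmaP InPH sigma_mono)

/-! ### Digits -/

theorem dsum_lt {B : ℕ} : ∀ (n : ℕ) (c : ℕ → ℕ), (∀ i < n, c i < B) →
    ∑ i ∈ Finset.range n, c i * B ^ i < B ^ n
  | 0, c, _ => by simp
  | n + 1, c, h => by
    rw [Finset.sum_range_succ, pow_succ]
    have h1 := dsum_lt n c (fun i hi => h i (by omega))
    have h2 := h n (by omega)
    have h3 : (c n + 1) * B ^ n ≤ B * B ^ n := Nat.mul_le_mul_right _ h2
    have h4 : (c n + 1) * B ^ n = c n * B ^ n + B ^ n := by ring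
    have h5 : B ^ n * B = B * B ^ n := by ring
    omega

theorem dsum_digit {B : ℕ} : ∀ (n : ℕ) (c : ℕ → ℕ), (∀ i < n, c i < B) → ∀ j < n,
    (∑ i ∈ Finset.range n, c i * B ^ i) / B ^ j % B = c j
  | 0, c, _, j, hj => absurd hj (by omega)
  | n + 1, c, h, j, hj => by
    have h0 := h 0 (by omega)
    have e : ∑ i ∈ Finset.range (n + 1), c i * B ^ i =
        c 0 + B * ∑ i ∈ Finset.range n, c (i + 1) * B ^ i := by
      rw [Finset.sum_range_succ', Finset.mul_sum, add_comm, pow_zero, mul_one]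
      refine congrArg _ (Finset.sum_congr rfl fun i _ => ?_)
      ring
    rw [e]
    cases j with
    | zero => rw [pow_zero, Nat.div_one, Nat.add_mul_mod_self_left, Nat.mod_eq_of_lt h0]
    | succ j =>
      rw [pow_succ', ← Nat.div_div_eq_div_mul, Nat.add_mul_div_left _ _ (by omega),
        Nat.div_eq_of_lt h0, zero_add]
      exact dsum_digit n (fun i => c (i + 1)) (fun i hi => h (i + 1) (by omega)) j (by omega)

/-- the number with the binary digits `u` -/
def nm (u : List ℕ) : ℕ := valB ((u.map (fun d => decide (d = 1))).reverse)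

theorem nm_eq : ∀ u : List ℕ, (∀ d ∈ u, d ≤ 1) → nm u = num 1 u
  | [], _ => rfl
  | a :: l, h => by
    have h1 := nm_eq l fun b hb => h b (List.mem_cons_of_mem _ hb)
    have h2 := h a (by simp)
    unfold nm at h1 ⊢
    rw [List.map_cons, List.reverse_cons, valB_append, h1, num, List.length_reverse,
      List.length_map, valB_cons, valB_nil]
    rcases Nat.le_one_iff_eq_zero_or_eq_one.1 h2 with rfl | rfl
    · simp
    · simp
      ring

theorem nm_poly : Poly nm := by
  refine NPC.Poly.valBits (NPC.Poly.reverse (NPC.Poly.map (l := fun u : List ℕ => u)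
    (F := fun _ d => decide (d = 1)) NPC.Poly.id ?_))
  exact NPC.Poly.decide_eq (NPC.Poly.snd NPC.Poly.id) (NPC.Poly.const 1)

theorem exists_num (K : ℕ) : ∀ T : ℕ, T < 2 ^ K → ∃ u : List ℕ, u.length = K ∧
    (∀ d ∈ u, d ≤ 1) ∧ num 1 u = T := by
  induction K with
  | zero =>
    intro T hT
    exact ⟨[], rfl, by simp, by rw [num]; rw [pow_zero] at hT; omega⟩
  | succ K ih =>
    intro T hT
    obtain ⟨u, hu1, hu2, hu3⟩ := ih (T / 2) (by rw [pow_succ] at hT; omega)
    refine ⟨u ++ [T % 2], by rw [List.length_append, hu1]; rfl, ?_, ?_⟩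
    · intro d hd
      rcases List.mem_append.1 hd with h | h
      · exact hu2 d h
      · rw [List.mem_singleton.1 h]
        omega
    · rw [num_append, hu3]
      omega

/-! ### The tree of the binary expansions of the numbers up to `T` -/

def gd (K T : ℕ) (u : List ℕ) : Prop :=
  u.length ≤ K ∧ (∀ d ∈ u, d ≤ 1) ∧ num 1 u * 2 ^ (K - u.length) ≤ T

theorem gd_nil (K T : ℕ) : gd K T [] := ⟨by simp, by simp, by simp [num]⟩

theorem tree_gd (K T : ℕ) : Tree 1 K (gd K T) where
  pre := by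
    rintro u c ⟨h1, h2, h3⟩
    rw [List.length_append, List.length_singleton] at h1 h3
    refine ⟨by omega, fun d hd => h2 d (by simp [hd]), ?_⟩
    rw [num_append] at h3
    have e : K - u.length = (K - (u.length + 1)) + 1 := by omega
    rw [e, pow_succ]
    refine le_trans ?_ h3
    have h4 : num 1 u * (2 ^ (K - (u.length + 1)) * 2) =
        (num 1 u * (1 + 1)) * 2 ^ (K - (u.length + 1)) := by ring
    rw [h4]
    exact Nat.mul_le_mul_right _ (Nat.le_add_right _ _)
  ext := by
    rintro u hu hd ⟨h1, h2, h3⟩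
    refine ⟨0, by omega, ?_, ?_, ?_⟩
    · rw [List.length_append, List.length_singleton]
      omega
    · intro d hdd
      rcases List.mem_append.1 hdd with h | h
      · exact hd d h
      · rw [List.mem_singleton.1 h]
        omega
    · rw [num_append, List.length_append, List.length_singleton]
      have e : K - u.length = (K - (u.length + 1)) + 1 := by omega
      rw [e, pow_succ] at h3
      refine le_trans (le_of_eq ?_) h3
      ring

theorem gd_exists_iff {K T : ℕ} {u : List ℕ} (hu : u.length ≤ K) (hd : ∀ d ∈ u, d ≤ 1) :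
    (∃ σ : List ℕ, σ.length = u.length ∧ (∀ d ∈ σ, d ≤ 1) ∧ gd K T σ ∧ num 1 u ≤ num 1 σ) ↔
      num 1 u * 2 ^ (K - u.length) ≤ T := by
  constructor
  · rintro ⟨σ, h1, _, ⟨_, _, h4⟩, h5⟩
    rw [h1] at h4
    exact (Nat.mul_le_mul_right _ h5).trans h4
  · intro h
    exact ⟨u, rfl, hd, ⟨hu, hd, h⟩, le_rfl⟩

theorem num_mul_lt {K : ℕ} {u : List ℕ} (hu : u.length ≤ K) (hd : ∀ d ∈ u, d ≤ 1) :
    num 1 u * 2 ^ (K - u.length) < 2 ^ K := by
  have h1 := num_lt u hd
  have h2 : num 1 u * 2 ^ (K - u.length) < 2 ^ u.length * 2 ^ (K - u.length) :=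
    Nat.mul_lt_mul_of_pos_right h1 (by positivity)
  rwa [← pow_add, Nat.add_sub_cancel' hu] at h2

/-! ### Values -/

section Val

variable (f : List Bool → ℕ) (r : Polynomial ℕ)

/-- the number of bits for one value -/
def bl (qs : List (List Bool)) : ℕ := r.eval (sz qs) + 1

/-- the number of bits for all values -/
def kb (qs : List (List Bool)) : ℕ := bl r qs * qs.length

/-- all values in one number -/
def nn (qs : List (List Bool)) : ℕ :=
  ∑ i ∈ Finset.range qs.length, f (qs.getD i []) * (2 ^ bl r qs) ^ i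

/-- the values in a number -/
def dec (z : List (List Bool) × List ℕ) : List ℕ :=
  (List.range z.1.length).map fun i =>
    (2 ^ kb r z.1 - 1 - nm z.2) / 2 ^ (bl r z.1 * min i z.1.length) % 2 ^ bl r z.1

variable {f r}

theorem bl_upoly : UPoly (bl r) := ((upoly_sz (α := List (List Bool))).eval r).add (UPoly.const 1)

theorem kb_upoly : UPoly (kb r) := bl_upoly.mul (UPoly.length NPC.Poly.id)

theorem nn_countP (hf : CountP f) : CountP (nn f r) := by
  have e1 : Poly (fun z : List (List Bool) × ℕ => z.1) := NPC.Poly.fst NPC.Poly.id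
  have e2 : Poly (fun z : List (List Bool) × ℕ => z.2) := NPC.Poly.snd NPC.Poly.id
  have hl : UPoly (fun z : List (List Bool) × ℕ => z.1.length) := UPoly.length e1
  have hm : UPoly (fun z : List (List Bool) × ℕ => min z.2 z.1.length) :=
    UPoly.of_le (NPC.Poly.min e2 (NPC.Poly.length e1)) hl fun z => min_le_right _ _
  have h1 : CountP (fun z : List (List Bool) × ℕ => f (z.1.getD z.2 []) *
      2 ^ (bl r z.1 * min z.2 z.1.length)) :=
    CountP.mul (hf.comp (NPC.Poly.getD e1 e2 (NPC.Poly.const [])))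
      (CountP.ofPoly (two_pow_poly ((bl_upoly.comp e1).mul hm)))
  refine (RX.sumRange h1 (UPoly.length NPC.Poly.id)).congr fun qs => ?_
  unfold nn
  refine Finset.sum_congr rfl fun i hi => ?_
  rw [Finset.mem_range] at hi
  simp only
  rw [min_eq_left hi.le, pow_mul]

theorem dec_poly : Poly (dec r) := by
  refine NPC.Poly.map (l := fun z : List (List Bool) × List ℕ => List.range z.1.length)
    (F := fun z i => (2 ^ kb r z.1 - 1 - nm z.2) / 2 ^ (bl r z.1 * min i z.1.length) %
      2 ^ bl r z.1) (UPoly.length (NPC.Poly.fst NPC.Poly.id)).range ?_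
  have e1 : Poly (fun z : (List (List Bool) × List ℕ) × ℕ => z.1.1) :=
    NPC.Poly.fst (NPC.Poly.fst NPC.Poly.id)
  have e2 : Poly (fun z : (List (List Bool) × List ℕ) × ℕ => z.1.2) :=
    NPC.Poly.snd (NPC.Poly.fst NPC.Poly.id)
  have e3 : Poly (fun z : (List (List Bool) × List ℕ) × ℕ => z.2) := NPC.Poly.snd NPC.Poly.id
  have hm : UPoly (fun z : (List (List Bool) × List ℕ) × ℕ => min z.2 z.1.1.length) :=
    UPoly.of_le (NPC.Poly.min e3 (NPC.Poly.length e1)) (UPoly.length e1)
      fun z => min_le_right _ _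
  exact NPC.Poly.mod (NPC.Poly.div (NPC.Poly.sub (NPC.Poly.sub (two_pow_poly (kb_upoly.comp e1))
    (NPC.Poly.const 1)) (nm_poly.comp e2)) (two_pow_poly ((bl_upoly.comp e1).mul hm)))
    (two_pow_poly (bl_upoly.comp e1))

theorem val_lt (hr : ∀ x, f x ≤ 2 ^ r.eval (sz x)) {qs : List (List Bool)} {i : ℕ}
    (hi : i < qs.length) : f (qs.getD i []) < 2 ^ bl r qs := by
  rw [List.getD_eq_getElem _ _ hi]
  refine (hr _).trans_lt (Nat.pow_lt_pow_right (by norm_num) ?_)
  unfold bl
  exact Nat.lt_succ_of_le (eval_mono r (sz_le_of_mem (List.getElem_mem hi)).le)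

theorem nn_lt (hr : ∀ x, f x ≤ 2 ^ r.eval (sz x)) (qs : List (List Bool)) :
    nn f r qs < 2 ^ kb r qs := by
  unfold nn kb
  rw [pow_mul]
  exact dsum_lt _ (fun i => f (qs.getD i [])) fun i hi => val_lt hr hi

theorem dec_eq (hr : ∀ x, f x ≤ 2 ^ r.eval (sz x)) (qs : List (List Bool)) {t : List ℕ}
    (h1 : ∀ d ∈ t, d ≤ 1) (h2 : PT.num 1 t = 2 ^ kb r qs - 1 - nn f r qs) :
    dec r (qs, t) = qs.map f := by
  unfold dec
  simp only
  rw [nm_eq t h1, h2]
  have h3 := nn_lt hr qs
  have h4 : 2 ^ kb r qs - 1 - (2 ^ kb r qs - 1 - nn f r qs) = nn f r qs := by omega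
  rw [h4]
  refine List.ext_getElem (by simp) fun i hi _ => ?_
  rw [List.length_map, List.length_range] at hi
  rw [List.getElem_map, List.getElem_map, List.getElem_range, min_eq_left hi.le, pow_mul]
  have h5 := dsum_digit qs.length (fun i => f (qs.getD i [])) (fun i hi => val_lt hr hi) i hi
  unfold nn
  rw [h5, List.getD_eq_getElem _ _ hi]

/-- the question about a path -/
def qv (r : Polynomial ℕ) (z : List (List Bool) × List ℕ) : List (List Bool) × ℕ :=
  (z.1, 2 ^ kb r z.1 - nm z.2 * 2 ^ (kb r z.1 - z.2.length))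

theorem qv_poly : Poly (qv r) := by
  have e1 : Poly (fun z : List (List Bool) × List ℕ => z.1) := NPC.Poly.fst NPC.Poly.id
  have e2 : Poly (fun z : List (List Bool) × List ℕ => z.2) := NPC.Poly.snd NPC.Poly.id
  have e3 : UPoly (fun z : List (List Bool) × List ℕ => kb r z.1 - z.2.length) :=
    UPoly.of_le (NPC.Poly.sub (kb_upoly.toPoly.comp e1) (NPC.Poly.length e2))
      (kb_upoly.comp e1) fun z => Nat.sub_le _ _
  have e4 : Poly (fun z : List (List Bool) × List ℕ => 2 ^ kb r z.1) :=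
    two_pow_poly (kb_upoly.comp e1)
  have e5 : Poly (fun z : List (List Bool) × List ℕ => nm z.2) := nm_poly.comp e2
  exact NPC.Poly.pair e1 (NPC.Poly.sub e4 (NPC.Poly.mul e5 (two_pow_poly e3)))

theorem qv_thr (hr : ∀ x, f x ≤ 2 ^ r.eval (sz x)) (qs : List (List Bool)) {u : List ℕ}
    (hu : u.length ≤ kb r qs) (hd : ∀ d ∈ u, d ≤ 1) : thr (nn f r) (qv r (qs, u)) ↔
      ¬ num 1 u * 2 ^ (kb r qs - u.length) ≤ 2 ^ kb r qs - 1 - nn f r qs := by
  unfold thr qv
  simp only
  rw [nm_eq u hd]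
  have h1 := num_mul_lt hu hd
  have hlt := nn_lt hr qs
  omega

/-- **Candidate lists for the vectors of the values of a `#P` function.** -/
theorem enum_values (hf : CountP f) {A : Set (List Bool)} (hA : PPHard A)
    (h : FeasibleIn InPH (Exclude Lthr A)) :
    ∃ E : List (List Bool) → List (List ℕ), CFn InPH E ∧ ∀ qs, qs.map f ∈ E qs := by
  obtain ⟨r, hr⟩ := hf.bound
  obtain ⟨g, hg, hgA⟩ := hA _ (thr_inPP (nn_countP (r := r) hf))
  have hqzp : Poly (fun z : List (List Bool) × List ℕ => g (bits (qv r z))) :=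
    (PIso.poly_iff.2 hg).comp (bits_poly.comp qv_poly)
  obtain ⟨G, hG, hG2⟩ := engineF (α := List (List Bool)) h (D := fun _ => 1) (n := kb r)
    (UPoly.const 1) kb_upoly hqzp
  refine ⟨fun qs => (G qs).map fun t => dec r (qs, t), ?_, fun qs => ?_⟩
  · have h1 : CFn InPH (fun qs : List (List Bool) => (qs, G qs)) :=
      (CFn.poly cl_ph NPC.Poly.id).pair cl_ph hG
    have h2 : Poly (fun p : List (List Bool) × List (List ℕ) => p.2.map fun t =>
        dec r (p.1, t)) := by
      refine NPC.Poly.map (l := fun p : List (List Bool) × List (List ℕ) => p.2)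
        (F := fun p t => dec r (p.1, t)) (NPC.Poly.snd NPC.Poly.id) ?_
      exact dec_poly.comp (NPC.Poly.pair (NPC.Poly.fst (NPC.Poly.fst NPC.Poly.id))
        (NPC.Poly.snd NPC.Poly.id))
    have h3 := (CFn.poly cl_ph h2).comp cl_ph h1
    exact h3
  · have hlt := nn_lt hr qs
    have hq : ∀ u : List ℕ, u.length ≤ kb r qs → (∀ d ∈ u, d ≤ 1) → (g (bits (qv r (qs, u))) ∈ A ↔
        ¬ ∃ σ : List ℕ, σ.length = u.length ∧ (∀ d ∈ σ, d ≤ 1) ∧
          gd (kb r qs) (2 ^ kb r qs - 1 - nn f r qs) σ ∧ num 1 u ≤ num 1 σ) := by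
      intro u hu hd
      rw [← hgA, bits_mem_lang, gd_exists_iff hu hd]
      exact qv_thr hr qs hu hd
    obtain ⟨t, ht, ht1, ht2, ht3, ht4⟩ := hG2 qs (gd (kb r qs) (2 ^ kb r qs - 1 - nn f r qs))
      (tree_gd _ _) (gd_nil _ _) hq
    obtain ⟨σ, hσ1, hσ2, hσ3⟩ := exists_num (kb r qs) (2 ^ kb r qs - 1 - nn f r qs) (by omega)
    have h5 := ht4 σ hσ1 hσ2 ⟨hσ1.le, hσ2, by
      rw [hσ1, hσ3, Nat.sub_self, pow_zero, mul_one]⟩
    have h6 := ht3.2.2
    rw [ht1, Nat.sub_self, pow_zero, mul_one] at h6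
    exact List.mem_map.2 ⟨t, ht, dec_eq hr qs ht2 (by omega)⟩

end Val

end Pool.Agent.TH762.QP
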